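import Mathlib
import Pool.Agent.Helper278.CEMod

set_option autoImplicit false
set_option linter.unusedSectionVars false

open scoped InnerProductSpace ComplexOrder Topology
open Filter

namespace Pool.Agent.Helper278.HU

open Pool.Agent.Helper278.CE

universe u

variable {A : Type u} [Ring A] [StarRing A] [Algebra ℂ A] [StarModule ℂ A] {τ : A →ₗ[ℂ] ℂ}
variable {K : Type u} [NormedAddCommGroup K] [InnerProductSpace ℂ K] [CompleteSpace K]
variable (h : TrAlg τ) {j : A →ₗ[ℂ] K} (hd : DenseRange j)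
  (hj : ∀ x y, ⟪j x, j y⟫_ℂ = τ (star x * y))
  (hb : ∀ a : A, ∃ C : ℝ, ∀ b, n2 τ (a * b) ≤ C * n2 τ b)

include h hj hb hd in
theorem Lm_j (a b : A) : Lm j a (j b) = j (a * b) := by
  obtain ⟨C, hC⟩ := hb a
  unfold Lm
  rw [LinearMap.extendOfNorm_eq hd ⟨C, fun x => ?_⟩]
  · rfl
  · show ‖j (a * x)‖ ≤ _
    rw [norm_j hj, norm_j hj]
    exact hC x

include h hj hb hd in
theorem Rm_j (a b : A) : Rm j a (j b) = j (b * a) := by
  obtain ⟨C, hC⟩ := hb (star a)
  unfold Rm
  rw [LinearMap.extendOfNorm_eq hd ⟨C, fun x => ?_⟩]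
  · rfl
  · show ‖j (x * a)‖ ≤ _
    rw [norm_j hj, norm_j hj, ← h.n2_star, star_mul, ← h.n2_star x]
    exact hC _

include h hj hb hd in
theorem star_Lm (a : A) : star (Lm j a) = Lm j (star a) := by
  apply ext_j hd
  intro y
  refine hd.eq_of_inner_right ℂ ?_
  intro x
  rw [ContinuousLinearMap.star_eq_adjoint, ContinuousLinearMap.adjoint_inner_right,
    Lm_j h hd hj hb, Lm_j h hd hj hb, hj, hj, star_mul, mul_assoc]

include h hj hb hd in
theorem star_Rm (a : A) : star (Rm j a) = Rm j (star a) := by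
  apply ext_j hd
  intro y
  refine hd.eq_of_inner_right ℂ ?_
  intro x
  rw [ContinuousLinearMap.star_eq_adjoint, ContinuousLinearMap.adjoint_inner_right,
    Rm_j h hd hj hb, Rm_j h hd hj hb, hj, hj, star_mul, mul_assoc, h.comm, mul_assoc]

include h hj hb hd in
theorem Lm_Rm (a b : A) : Lm j a * Rm j b = Rm j b * Lm j a := by
  apply ext_j hd
  intro x
  show Lm j a (Rm j b (j x)) = Rm j b (Lm j a (j x))
  rw [Rm_j h hd hj hb, Lm_j h hd hj hb, Lm_j h hd hj hb, Rm_j h hd hj hb, mul_assoc]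

include h hj hb hd in
theorem Rm_mem (a : A) : Rm j a ∈ StarSubalgebra.centralizer ℂ (Set.range (Lm j)) := by
  rw [StarSubalgebra.mem_centralizer_iff (R := ℂ)]
  rintro _ ⟨b, rfl⟩
  rw [star_Lm h hd hj hb]
  exact ⟨Lm_Rm h hd hj hb b a, Lm_Rm h hd hj hb (star b) a⟩

include h hj hb hd in
/-- elements of the von Neumann algebra commute with right multiplications -/
theorem Rm_comm (X : K →L[ℂ] K) (hX : X ∈ MM j) (a : A) (v : K) : Rm j a (X v) = X (Rm j a v) := by
  unfold MM at hX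
  rw [mem_vnGen] at hX
  exact congrArg (fun w : K →L[ℂ] K => w v) (hX _ (Rm_mem h hd hj hb a)).1

/-- the standard representation -/
noncomputable def LHom : A →⋆ₐ[ℂ] Elt (MM j) where
  toFun a := ⟨Lm j a, Lm_mem a⟩
  map_one' := by
    apply Subtype.ext
    apply ext_j hd
    intro x
    show Lm j 1 (j x) = j x
    rw [Lm_j h hd hj hb, one_mul]
  map_mul' a b := by
    apply Subtype.ext
    apply ext_j hd
    intro x
    show Lm j (a * b) (j x) = Lm j a (Lm j b (j x))
    rw [Lm_j h hd hj hb, Lm_j h hd hj hb, Lm_j h hd hj hb, mul_assoc]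
  map_zero' := by
    apply Subtype.ext
    apply ext_j hd
    intro x
    show Lm j 0 (j x) = 0
    rw [Lm_j h hd hj hb, zero_mul, map_zero]
  map_add' a b := by
    apply Subtype.ext
    apply ext_j hd
    intro x
    show Lm j (a + b) (j x) = Lm j a (j x) + Lm j b (j x)
    rw [Lm_j h hd hj hb, Lm_j h hd hj hb, Lm_j h hd hj hb, add_mul, map_add]
  commutes' c := by
    apply Subtype.ext
    apply ext_j hd
    intro x
    show Lm j (algebraMap ℂ A c) (j x) = c • j x
    rw [Lm_j h hd hj hb, Algebra.algebraMap_eq_smul_one, smul_mul_assoc, one_mul, map_smul]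
  map_star' a := by
    apply Subtype.ext
    exact (star_Lm h hd hj hb a).symm

theorem LHom_apply (a : A) : ((LHom h hd hj hb a : Elt (MM j)) : K →L[ℂ] K) = Lm j a := rfl

theorem LHom_j1 (a : A) : ((LHom h hd hj hb a : Elt (MM j)) : K →L[ℂ] K) (j 1) = j a := by
  rw [LHom_apply, Lm_j h hd hj hb, mul_one]

/-- the vector state as a linear functional -/
noncomputable def tauL (j : A →ₗ[ℂ] K) : Elt (MM j) →ₗ[ℂ] ℂ where
  toFun X := ⟪j 1, (X : K →L[ℂ] K) (j 1)⟫_ℂ
  map_add' X Y := by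
    show ⟪j 1, ((X : K →L[ℂ] K) + (Y : K →L[ℂ] K)) (j 1)⟫_ℂ = _
    rw [ContinuousLinearMap.add_apply, inner_add_right]
  map_smul' c X := by
    show ⟪j 1, (c • (X : K →L[ℂ] K)) (j 1)⟫_ℂ = _
    rw [ContinuousLinearMap.smul_apply, inner_smul_right]
    rfl

theorem tauL_apply (X : Elt (MM j)) : tauL j X = ⟪j 1, (X : K →L[ℂ] K) (j 1)⟫_ℂ := rfl

theorem tauL_LHom (a : A) : tauL j (LHom h hd hj hb a) = τ a := by
  rw [tauL_apply, LHom_j1, hj, star_one, one_mul]

end Pool.Agent.Helper278.HU
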