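import Mathlib
import Pool.Agent.Helper278.HU.Gns
import Pool.Agent.Helper436.AD.Sat
import Pool.Agent.Helper436.AD.LFF

set_option autoImplicit false
set_option linter.unusedSectionVars false

open scoped InnerProductSpace ComplexOrder Topology
open Filter

namespace Pool.Agent.Helper278.HU

open Pool.Agent.Helper278.CE Pool.Agent.Helper436.AD

/-- a subset closed under the star algebra operations and multiplication by elements of `ℚ(i)` -/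
structure Cl {A : Type} [Ring A] [StarRing A] [Algebra ℂ A] (S : Set A) : Prop where
  one : (1 : A) ∈ S
  add : ∀ x ∈ S, ∀ y ∈ S, x + y ∈ S
  mul : ∀ x ∈ S, ∀ y ∈ S, x * y ∈ S
  star : ∀ x ∈ S, Star.star x ∈ S
  smul : ∀ (q r : ℚ), ∀ x ∈ S, ((q : ℂ) + (r : ℂ) * Complex.I) • x ∈ S

/-- the trace of matrices as a linear functional -/
noncomputable def mtrL {A : Type} [Ring A] [StarRing A] [Algebra ℂ A] (τ : A →ₗ[ℂ] ℂ) :
    Matrix (Fin 3) (Fin 3) A →ₗ[ℂ] ℂ where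
  toFun x := mtr 3 τ x
  map_add' x y := by
    simp only [mtr, Matrix.add_apply, map_add, Finset.sum_add_distrib, add_div]
  map_smul' c x := by
    simp only [mtr, Matrix.smul_apply, map_smul, RingHom.id_apply, smul_eq_mul, ← Finset.mul_sum,
      mul_div_assoc]

/-- the entrywise application of a star homomorphism -/
def mapM {A B : Type} [Ring A] [StarRing A] [Algebra ℂ A] [Ring B] [StarRing B] [Algebra ℂ B]
    (f : A →⋆ₐ[ℂ] B) : Matrix (Fin 3) (Fin 3) A →⋆ₐ[ℂ] Matrix (Fin 3) (Fin 3) B where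
  __ := (f : A →ₐ[ℂ] B).mapMatrix
  map_star' x := by
    ext i j
    exact map_star f (x j i)

theorem mapM_apply {A B : Type} [Ring A] [StarRing A] [Algebra ℂ A] [Ring B] [StarRing B]
    [Algebra ℂ B] (f : A →⋆ₐ[ℂ] B) (x : Matrix (Fin 3) (Fin 3) A) (i j : Fin 3) :
    mapM f x i j = f (x i j) := rfl

/-- What is needed from the countable set `S`. -/
structure Good {A : Type} [Ring A] [StarRing A] [Algebra ℂ A] (φ : A →ₗ[ℂ] ℂ) (S : Set A)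
    (p : Fin 13 → A) (c : ℝ) : Prop where
  countable : S.Countable
  cl : Cl S
  hp : ∀ i, p i ∈ unitary A ∧ p i ∈ S
  gap : ∃ g : Fin 5 → A, (∀ l, g l ∈ unitary A ∧ g l ∈ S) ∧
    ∀ x, n2 φ (x - φ x • (1 : A)) ≤ 20 * ∑ l, n2 φ (g l * x - x * g l)
  inf : ∃ W : ℕ → A, (∀ i, W i ∈ unitary A ∧ W i ∈ S) ∧ ∀ i j, i ≠ j → φ (star (W i) * W j) = 0
  polar : ∀ x ∈ S, ∃ v ∈ unitary A, v ∈ S ∧ ∃ b ∈ S, x = v * (star b * b)
  polar3 : ∀ x : Matrix (Fin 3) (Fin 3) A, (∀ i j, x i j ∈ S) →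
    ∃ v ∈ unitary (Matrix (Fin 3) (Fin 3) A), (∀ i j, v i j ∈ S) ∧
      ∃ b : Matrix (Fin 3) (Fin 3) A, (∀ i j, b i j ∈ S) ∧ x = v * (star b * b)
  sat : ∀ w : Fin 6 → A, (∀ i, w i ∈ unitary A ∧ w i ∈ S) →
    ∃ z : Fin 2 → A, (∀ i, z i ∈ unitary A ∧ z i ∈ S) ∧ FF (10 ^ 8) φ p w z ≤ 0
  unsat : ∀ q : Fin 13 → Matrix (Fin 3) (Fin 3) A,
    (∀ i, q i ∈ unitary (Matrix (Fin 3) (Fin 3) A) ∧ ∀ a b, q i a b ∈ S) →
    ∃ w : Fin 6 → Matrix (Fin 3) (Fin 3) A,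
      (∀ i, w i ∈ unitary (Matrix (Fin 3) (Fin 3) A) ∧ ∀ a b, w i a b ∈ S) ∧
      ∀ z : Fin 2 → Matrix (Fin 3) (Fin 3) A,
        (∀ i, z i ∈ unitary (Matrix (Fin 3) (Fin 3) A)) → c ≤ FF (10 ^ 8) (mtr 3 φ) q w z

section clos

variable {A : Type} [Ring A] [StarRing A] [Algebra ℂ A] [StarModule ℂ A]

/-- the closure of `S` in the 2-norm -/
def closS (φ : A →ₗ[ℂ] ℂ) (S : Set A) : Set A := {x | ∀ ε : ℝ, 0 < ε → ∃ s ∈ S, n2 φ (x - s) < ε}

end clos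

end Pool.Agent.Helper278.HU
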