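import Mathlib
import Pool.Agent.Helper278.HU.Defs

set_option autoImplicit false
set_option linter.all false

open scoped InnerProductSpace ComplexOrder Topology
open Filter

namespace Pool.Agent.Helper278.HU

open Pool.Agent.Helper278.CE Pool.Agent.Helper436.AD

universe u

theorem exists_closed {A β : Type} [Finite β] (F : Set ((β → A) → A)) (hF : F.Countable) :
    ∃ S : Set A, S.Countable ∧ ∀ f ∈ F, ∀ x : β → A, (∀ i, x i ∈ S) → f x ∈ S := by
  have : Countable F := hF.to_subtype
  have e1 : Encodable F := Encodable.ofCountable F
  have e2 : Fintype β := Fintype.ofFinite β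
  have e3 : Encodable β := Fintype.toEncodable β
  let el : WType (fun _ : F => β) → A := WType.elim A (fun x => x.1.1 (fun b => x.2 b))
  refine ⟨Set.range el, Set.countable_range el, ?_⟩
  intro f hf x hx
  choose t ht using hx
  refine ⟨WType.mk ⟨f, hf⟩ t, ?_⟩
  show f (fun b => el (t b)) = f x
  congr 1
  funext b
  exact ht b

end Pool.Agent.Helper278.HU
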