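import Mathlib
import Pool.Agent.Helper278.HU.Defs

set_option autoImplicit false
set_option linter.all false

open scoped InnerProductSpace ComplexOrder Topology
open Filter

namespace Pool.Agent.Helper278.HU

open Pool.Agent.Helper278.CE Pool.Agent.Helper436.AD

universe u

/-- right multiplication by a unitary does not change the 2-norm -/
theorem n2_mul_unitary_h275 {A : Type u} [Ring A] [StarRing A] [Algebra ℂ A] [StarModule ℂ A]
    {τ : A →ₗ[ℂ] ℂ} (h : TrAlg τ) {b c : A} (hc : c * star c = 1) :
    n2 τ (b * c) = n2 τ b := by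
  unfold n2
  have e : τ (star (b * c) * (b * c)) = τ (star b * b) := by
    have e1 : star (b * c) * (b * c) = star c * (star b * b * c) := by
      rw [star_mul]
      noncomm_ring
    rw [e1, h.comm, mul_assoc, mul_assoc, hc, mul_one]
  rw [e]

theorem near_polar {A : Type u} [Ring A] [StarRing A] [Algebra ℂ A] [StarModule ℂ A]
    {τ : A →ₗ[ℂ] ℂ} (h : TrAlg τ) {s v b w : A} (hv : v ∈ unitary A) (hw : w ∈ unitary A)
    (hs : s = v * (star b * b)) : n2 τ (w - v) ≤ 2 * n2 τ (w - s) := by
  have hv1 : star v * v = 1 := (Unitary.mem_iff.1 hv).1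
  have hv2 : v * star v = 1 := (Unitary.mem_iff.1 hv).2
  have hw1 : star w * w = 1 := (Unitary.mem_iff.1 hw).1
  have hw2 : w * star w = 1 := (Unitary.mem_iff.1 hw).2
  have hexp : ∀ t : A, star t * t = 1 →
      n2 τ (s - t) ^ 2 = (τ (star s * s)).re + 1 - 2 * (τ (star s * t)).re := by
    intro t ht
    rw [h.n2_sq]
    have e : star (s - t) * (s - t) = star s * s + star t * t - star s * t - star t * s := by
      rw [star_sub]
      noncomm_ring
    have e2 : (τ (star t * s)).re = (τ (star s * t)).re := by
      have h1 := h.conj (star s * t)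
      rw [star_mul, star_star] at h1
      rw [h1]
      rfl
    rw [e, map_sub, map_sub, map_add, ht, h.one, Complex.sub_re, Complex.sub_re, Complex.add_re, e2,
      Complex.one_re]
    ring
  have hsv : star s * v = star b * b := by
    rw [hs, star_mul, star_mul, star_star, mul_assoc, hv1, mul_one]
  have hsw : star s * w = star b * (b * (star v * w)) := by
    rw [hs, star_mul, star_mul, star_star]
    noncomm_ring
  have hc : (star v * w) * star (star v * w) = 1 := by
    rw [star_mul, star_star]
    calc star v * w * (star w * v) = star v * (w * star w) * v := by noncomm_ring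
      _ = 1 := by rw [hw2, mul_one, hv1]
  have hk : (τ (star s * w)).re ≤ (τ (star b * b)).re := by
    have h1 := h.cauchy b (b * (star v * w))
    rw [n2_mul_unitary_h275 h hc, ← pow_two, h.n2_sq] at h1
    rw [hsw]
    exact (Complex.re_le_norm _).trans h1
  have h1 := hexp v hv1
  have h2 := hexp w hw1
  rw [hsv] at h1
  have h3 : n2 τ (s - v) ^ 2 ≤ n2 τ (s - w) ^ 2 := by
    rw [h1, h2]
    linarith
  have h4 : n2 τ (s - v) ≤ n2 τ (s - w) :=
    (pow_le_pow_iff_left₀ (n2_nonneg _ _) (n2_nonneg _ _) two_ne_zero).1 h3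
  have h5 := h.n2_tri w s v
  rw [h.n2_sub_comm s w] at h4
  linarith

end Pool.Agent.Helper278.HU
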