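import Mathlib
import Pool.Agent.Helper278.HU.Defs

set_option autoImplicit false
set_option linter.all false

open scoped InnerProductSpace ComplexOrder Topology
open Filter

namespace Pool.Agent.Helper278.HU

open Pool.Agent.Helper278.CE Pool.Agent.Helper436.AD

universe u

theorem n2_smul_249 {A : Type} [Ring A] [StarRing A] [Algebra ℂ A] [StarModule ℂ A]
    (φ : A →ₗ[ℂ] ℂ) (z : ℂ) (x : A) : n2 φ (z • x) = ‖z‖ * n2 φ x := by
  have e : (φ (star (z • x) * (z • x))).re = ‖z‖ ^ 2 * (φ (star x * x)).re := by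
    rw [star_smul, smul_mul_smul_comm, map_smul, smul_eq_mul]
    have : star z * z = ((‖z‖ ^ 2 : ℝ) : ℂ) := by
      rw [Complex.star_def, mul_comm, Complex.mul_conj, Complex.normSq_eq_norm_sq]
    rw [this, Complex.re_ofReal_mul]
  unfold n2
  rw [e, Real.sqrt_mul (by positivity), Real.sqrt_sq (norm_nonneg z)]

theorem mem_closS_iff_249 {A : Type} [Ring A] [StarRing A] [Algebra ℂ A] [StarModule ℂ A]
    (φ : A →ₗ[ℂ] ℂ) (S : Set A) (x : A) :
    x ∈ closS φ S ↔ ∀ ε : ℝ, 0 < ε → ∃ s ∈ S, n2 φ (x - s) < ε := Iff.rfl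

theorem closS_add_249 {A : Type} [Ring A] [StarRing A] [Algebra ℂ A] [StarModule ℂ A]
    {φ : A →ₗ[ℂ] ℂ} (h : TrAlg φ) {S : Set A} (hS : Cl S) {x y : A}
    (hx : x ∈ closS φ S) (hy : y ∈ closS φ S) : x + y ∈ closS φ S := by
  intro ε hε
  obtain ⟨s, hs, hs'⟩ := hx (ε / 2) (half_pos hε)
  obtain ⟨t, ht, ht'⟩ := hy (ε / 2) (half_pos hε)
  refine ⟨s + t, hS.add s hs t ht, ?_⟩
  have e : x + y - (s + t) = (x - s) + (y - t) := by abel
  rw [e]
  have := h.n2_add_le (x - s) (y - t)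
  linarith

theorem closS_star_249 {A : Type} [Ring A] [StarRing A] [Algebra ℂ A] [StarModule ℂ A]
    {φ : A →ₗ[ℂ] ℂ} (h : TrAlg φ) {S : Set A} (hS : Cl S) {x : A}
    (hx : x ∈ closS φ S) : star x ∈ closS φ S := by
  intro ε hε
  obtain ⟨s, hs, hs'⟩ := hx ε hε
  refine ⟨star s, hS.star s hs, ?_⟩
  rw [← star_sub, h.n2_star]
  exact hs'

theorem closS_mul_249 {A : Type} [Ring A] [StarRing A] [Algebra ℂ A] [StarModule ℂ A]
    {φ : A →ₗ[ℂ] ℂ} (h : TrAlg φ) (hb : ∀ a : A, ∃ C : ℝ, ∀ b, n2 φ (a * b) ≤ C * n2 φ b)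
    {S : Set A} (hS : Cl S) {x y : A}
    (hx : x ∈ closS φ S) (hy : y ∈ closS φ S) : x * y ∈ closS φ S := by
  intro ε hε
  obtain ⟨C, hC⟩ := hb x
  have hC1 : 0 < |C| + 1 := by positivity
  obtain ⟨t, ht, ht'⟩ := hy (ε / (2 * (|C| + 1))) (by positivity)
  obtain ⟨D, hD⟩ := hb (star t)
  have hD1 : 0 < |D| + 1 := by positivity
  obtain ⟨s, hs, hs'⟩ := hx (ε / (2 * (|D| + 1))) (by positivity)
  refine ⟨s * t, hS.mul s hs t ht, ?_⟩
  have e : x * y - s * t = x * (y - t) + (x - s) * t := by noncomm_ring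
  have h1 : n2 φ (x * (y - t)) < ε / 2 := by
    have h2 := hC (y - t)
    have h3 : C * n2 φ (y - t) ≤ (|C| + 1) * n2 φ (y - t) := by
      apply mul_le_mul_of_nonneg_right _ (n2_nonneg _ _)
      have := le_abs_self C
      linarith
    have h4 : (|C| + 1) * n2 φ (y - t) < (|C| + 1) * (ε / (2 * (|C| + 1))) :=
      mul_lt_mul_of_pos_left ht' hC1
    have h5 : (|C| + 1) * (ε / (2 * (|C| + 1))) = ε / 2 := by field_simp
    linarith
  have h1' : n2 φ ((x - s) * t) < ε / 2 := by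
    have h0 : n2 φ ((x - s) * t) = n2 φ (star t * star (x - s)) := by
      rw [← star_mul, h.n2_star]
    have h2 := hD (star (x - s))
    rw [h.n2_star] at h2
    have h3 : D * n2 φ (x - s) ≤ (|D| + 1) * n2 φ (x - s) := by
      apply mul_le_mul_of_nonneg_right _ (n2_nonneg _ _)
      have := le_abs_self D
      linarith
    have h4 : (|D| + 1) * n2 φ (x - s) < (|D| + 1) * (ε / (2 * (|D| + 1))) :=
      mul_lt_mul_of_pos_left hs' hD1
    have h5 : (|D| + 1) * (ε / (2 * (|D| + 1))) = ε / 2 := by field_simp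
    rw [h0]
    linarith
  rw [e]
  have := h.n2_add_le (x * (y - t)) ((x - s) * t)
  linarith

theorem closS_alg_249 {A : Type} [Ring A] [StarRing A] [Algebra ℂ A] [StarModule ℂ A]
    {φ : A →ₗ[ℂ] ℂ} {S : Set A} (hS : Cl S) (c : ℂ) : algebraMap ℂ A c ∈ closS φ S := by
  intro ε hε
  have hN : 0 ≤ n2 φ (1 : A) := n2_nonneg _ _
  have hpos : 0 < ε / (2 * (n2 φ (1 : A) + 1)) := by positivity
  obtain ⟨q, hq1, hq2⟩ := exists_rat_btwn (lt_add_of_pos_right c.re hpos)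
  obtain ⟨r, hr1, hr2⟩ := exists_rat_btwn (lt_add_of_pos_right c.im hpos)
  refine ⟨((q : ℂ) + (r : ℂ) * Complex.I) • (1 : A), hS.smul q r 1 hS.one, ?_⟩
  rw [Algebra.algebraMap_eq_smul_one, ← sub_smul, n2_smul_249]
  have h1 : ‖c - ((q : ℂ) + (r : ℂ) * Complex.I)‖ < ε / (n2 φ (1 : A) + 1) := by
    have h2 := Complex.norm_le_abs_re_add_abs_im (c - ((q : ℂ) + (r : ℂ) * Complex.I))
    have e1 : (c - ((q : ℂ) + (r : ℂ) * Complex.I)).re = c.re - q := by simp
    have e2 : (c - ((q : ℂ) + (r : ℂ) * Complex.I)).im = c.im - r := by simp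
    rw [e1, e2] at h2
    have h3 : |c.re - q| < ε / (2 * (n2 φ (1 : A) + 1)) := by
      rw [abs_sub_comm, abs_of_pos (sub_pos.2 hq1)]
      linarith
    have h4 : |c.im - r| < ε / (2 * (n2 φ (1 : A) + 1)) := by
      rw [abs_sub_comm, abs_of_pos (sub_pos.2 hr1)]
      linarith
    have h5 : ε / (n2 φ (1 : A) + 1) = ε / (2 * (n2 φ (1 : A) + 1)) + ε / (2 * (n2 φ (1 : A) + 1)) := by
      field_simp
      norm_num
    linarith
  have hpos2 : 0 < n2 φ (1 : A) + 1 := by positivity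
  calc ‖c - ((q : ℂ) + (r : ℂ) * Complex.I)‖ * n2 φ (1 : A)
      ≤ ‖c - ((q : ℂ) + (r : ℂ) * Complex.I)‖ * (n2 φ (1 : A) + 1) :=
        mul_le_mul_of_nonneg_left (by linarith) (norm_nonneg _)
    _ < ε / (n2 φ (1 : A) + 1) * (n2 φ (1 : A) + 1) := mul_lt_mul_of_pos_right h1 hpos2
    _ = ε := by field_simp

/-- the closure of `S` as a star subalgebra -/
theorem exists_T {A : Type} [Ring A] [StarRing A] [Algebra ℂ A] [StarModule ℂ A]
    {φ : A →ₗ[ℂ] ℂ} (h : TrAlg φ) (hb : ∀ a : A, ∃ C : ℝ, ∀ b, n2 φ (a * b) ≤ C * n2 φ b)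
    {S : Set A} (hS : Cl S) : ∃ T : StarSubalgebra ℂ A, (T : Set A) = closS φ S := by
  refine ⟨{ carrier := closS φ S
            mul_mem' := fun hx hy => closS_mul_249 h hb hS hx hy
            add_mem' := fun hx hy => closS_add_249 h hS hx hy
            algebraMap_mem' := fun c => closS_alg_249 hS c
            star_mem' := fun hx => closS_star_249 h hS hx }, rfl⟩

theorem sub_closS {A : Type} [Ring A] [StarRing A] [Algebra ℂ A] [StarModule ℂ A]
    {φ : A →ₗ[ℂ] ℂ} (h : TrAlg φ) (S : Set A) : S ⊆ closS φ S := by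
  intro x hx ε hε
  refine ⟨x, hx, ?_⟩
  rw [sub_self, h.n2_zero]
  exact hε

end Pool.Agent.Helper278.HU
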