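import Mathlib
import Pool.Agent.Helper278.HU.Defs

set_option autoImplicit false
set_option linter.all false

open scoped InnerProductSpace ComplexOrder Topology
open Filter

namespace Pool.Agent.Helper278.HU

open Pool.Agent.Helper278.CE Pool.Agent.Helper436.AD

universe u

theorem mtrL_eq747 {A : Type} [Ring A] [StarRing A] [Algebra ℂ A]
    (τ : A →ₗ[ℂ] ℂ) (x : Matrix (Fin 3) (Fin 3) A) : mtrL τ x = (∑ i, τ (x i i)) / (3 : ℕ) := rfl

theorem mtrL_star_mul747 {A : Type} [Ring A] [StarRing A] [Algebra ℂ A]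
    (τ : A →ₗ[ℂ] ℂ) (x : Matrix (Fin 3) (Fin 3) A) :
    mtrL τ (star x * x) = (∑ i, ∑ k, τ (star (x k i) * x k i)) / (3 : ℕ) := by
  rw [mtrL_eq747]
  congr 1
  refine Finset.sum_congr rfl fun i _ => ?_
  rw [Matrix.mul_apply, map_sum]
  rfl

theorem mtrL_trAlg {A : Type} [Ring A] [StarRing A] [Algebra ℂ A] [StarModule ℂ A]
    {τ : A →ₗ[ℂ] ℂ} (h : TrAlg τ) : TrAlg (mtrL τ) := by
  have h3 : (0 : ℂ) ≤ ((3 : ℕ) : ℂ)⁻¹ := by
    have : ((3 : ℕ) : ℂ)⁻¹ = (((3 : ℝ)⁻¹ : ℝ) : ℂ) := by push_cast; rfl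
    rw [this]
    exact Complex.zero_le_real.2 (by norm_num)
  refine ⟨?_, ?_, ?_, ?_, ?_⟩
  · rw [mtrL_eq747]
    simp [h.one]
  · intro x y
    rw [mtrL_eq747, mtrL_eq747]
    congr 1
    simp only [Matrix.mul_apply, map_sum]
    rw [Finset.sum_comm]
    refine Finset.sum_congr rfl fun i _ => Finset.sum_congr rfl fun k _ => ?_
    exact h.comm _ _
  · intro x
    rw [mtrL_star_mul747, div_eq_mul_inv]
    exact mul_nonneg (Finset.sum_nonneg fun i _ => Finset.sum_nonneg fun k _ => h.nonneg _) h3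
  · intro x
    rw [mtrL_eq747, mtrL_eq747, star_div₀, star_sum]
    congr 1
    · refine Finset.sum_congr rfl fun i _ => ?_
      exact h.conj (x i i)
    · simp
  · intro x hx
    rw [mtrL_star_mul747, div_eq_zero_iff] at hx
    rcases hx with hx | hx
    · rw [Finset.sum_eq_zero_iff_of_nonneg
        (fun i _ => Finset.sum_nonneg fun k _ => h.nonneg _)] at hx
      ext k i
      have h1 := hx i (Finset.mem_univ _)
      rw [Finset.sum_eq_zero_iff_of_nonneg (fun k _ => h.nonneg _)] at h1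
      exact h.faithful _ (h1 k (Finset.mem_univ _))
    · exfalso
      norm_num at hx

theorem n2_mtrL_le {A : Type} [Ring A] [StarRing A] [Algebra ℂ A] [StarModule ℂ A]
    {τ : A →ₗ[ℂ] ℂ} (h : TrAlg τ) (x : Matrix (Fin 3) (Fin 3) A) :
    n2 (mtrL τ) x ≤ ∑ i, ∑ j, n2 τ (x i j) := by
  have hnn : 0 ≤ ∑ i, ∑ j, n2 τ (x i j) :=
    Finset.sum_nonneg fun i _ => Finset.sum_nonneg fun j _ => n2_nonneg _ _
  have hre : (mtrL τ (star x * x)).re = (∑ i, ∑ j, n2 τ (x i j) ^ 2) / 3 := by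
    rw [mtrL_star_mul747, Complex.div_natCast_re, Complex.re_sum]
    rw [Finset.sum_comm]
    congr 1
    refine Finset.sum_congr rfl fun i _ => ?_
    rw [Complex.re_sum]
    refine Finset.sum_congr rfl fun k _ => ?_
    rw [h.n2_sq]
  have h1 : ∑ i, ∑ j, n2 τ (x i j) ^ 2 ≤ (∑ i, ∑ j, n2 τ (x i j)) ^ 2 := by
    calc ∑ i, ∑ j, n2 τ (x i j) ^ 2 ≤ ∑ i, (∑ j, n2 τ (x i j)) ^ 2 :=
          Finset.sum_le_sum fun i _ => Finset.sum_sq_le_sq_sum_of_nonneg fun j _ => n2_nonneg _ _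
      _ ≤ _ := Finset.sum_sq_le_sq_sum_of_nonneg fun i _ => Finset.sum_nonneg fun j _ => n2_nonneg _ _
  have h2 : 0 ≤ ∑ i, ∑ j, n2 τ (x i j) ^ 2 :=
    Finset.sum_nonneg fun i _ => Finset.sum_nonneg fun j _ => sq_nonneg _
  unfold n2 at hnn ⊢
  refine Real.sqrt_le_iff.2 ⟨hnn, ?_⟩
  rw [hre]
  refine le_trans ?_ h1
  linarith

end Pool.Agent.Helper278.HU
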