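import Mathlib
import Pool.Agent.Helper278.HU.Defs

set_option autoImplicit false
set_option linter.all false

open scoped InnerProductSpace ComplexOrder Topology
open Filter

namespace Pool.Agent.Helper278.HU

open Pool.Agent.Helper278.CE Pool.Agent.Helper436.AD

universe u

theorem inn_star79 {A : Type u} [Ring A] [StarRing A] [Algebra ℂ A] [StarModule ℂ A]
    {τ : A →ₗ[ℂ] ℂ} {K : Type u} [NormedAddCommGroup K] [InnerProductSpace ℂ K] [CompleteSpace K]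
    (h : TrAlg τ) {j : A →ₗ[ℂ] K} (hd : DenseRange j) (hj : ∀ x y, ⟪j x, j y⟫_ℂ = τ (star x * y))
    (hb : ∀ a : A, ∃ C : ℝ, ∀ b, n2 τ (a * b) ≤ C * n2 τ b) (X : K →L[ℂ] K) (hX : X ∈ MM j) (a : A) :
    ⟪j a, (star X) (j 1)⟫_ℂ = ⟪X (j 1), j (star a)⟫_ℂ := by
  have e1 : j a = Rm j a (j 1) := by rw [Rm_j h hd hj hb, one_mul]
  have e2 : X (j a) = Rm j a (X (j 1)) := by
    rw [Rm_comm h hd hj hb X hX]; exact congrArg X e1
  rw [ContinuousLinearMap.star_eq_adjoint, ContinuousLinearMap.adjoint_inner_right, e2]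
  have e3 : ⟪X (j 1), (star (Rm j a)) (j 1)⟫_ℂ = ⟪Rm j a (X (j 1)), j 1⟫_ℂ := by
    rw [ContinuousLinearMap.star_eq_adjoint, ContinuousLinearMap.adjoint_inner_right]
  rw [← e3, star_Rm h hd hj hb, Rm_j h hd hj hb, one_mul]

theorem norm_le79 {A : Type u} [Ring A] [StarRing A] [Algebra ℂ A] [StarModule ℂ A]
    {τ : A →ₗ[ℂ] ℂ} {K : Type u} [NormedAddCommGroup K] [InnerProductSpace ℂ K] [CompleteSpace K]
    (h : TrAlg τ) {j : A →ₗ[ℂ] K} (hd : DenseRange j) (hj : ∀ x y, ⟪j x, j y⟫_ℂ = τ (star x * y))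
    (hb : ∀ a : A, ∃ C : ℝ, ∀ b, n2 τ (a * b) ≤ C * n2 τ b) (X : K →L[ℂ] K) (hX : X ∈ MM j) :
    ‖(star X) (j 1)‖ ≤ ‖X (j 1)‖ := by
  have key : ∀ ξ : K, ‖⟪ξ, (star X) (j 1)⟫_ℂ‖ ≤ ‖ξ‖ * ‖X (j 1)‖ := by
    intro ξ
    refine hd.induction_on (p := fun ξ => ‖⟪ξ, (star X) (j 1)⟫_ℂ‖ ≤ ‖ξ‖ * ‖X (j 1)‖) ξ ?_ ?_
    · exact isClosed_le (by fun_prop) (by fun_prop)
    · intro a
      rw [inn_star79 h hd hj hb X hX]
      refine (norm_inner_le_norm _ _).trans ?_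
      rw [norm_j hj, norm_j hj, h.n2_star, mul_comm]
  have k := key ((star X) (j 1))
  rw [inner_self_eq_norm_sq_to_K] at k
  have k2 : ‖(star X) (j 1)‖ ^ 2 ≤ ‖(star X) (j 1)‖ * ‖X (j 1)‖ := by
    simpa using k
  rcases eq_or_lt_of_le (norm_nonneg ((star X) (j 1))) with h0 | h0
  · rw [← h0]; exact norm_nonneg _
  · nlinarith

theorem tauL_mul79 {A : Type u} [Ring A] [StarRing A] [Algebra ℂ A] [StarModule ℂ A]
    {K : Type u} [NormedAddCommGroup K] [InnerProductSpace ℂ K] [CompleteSpace K]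
    {j : A →ₗ[ℂ] K} (X Y : Elt (MM j)) :
    tauL j (X * Y) = ⟪(star (X : K →L[ℂ] K)) (j 1), (Y : K →L[ℂ] K) (j 1)⟫_ℂ := by
  rw [tauL_apply, ContinuousLinearMap.star_eq_adjoint, ContinuousLinearMap.adjoint_inner_left]
  rfl

theorem tauL_star_mul79 {A : Type u} [Ring A] [StarRing A] [Algebra ℂ A] [StarModule ℂ A]
    {K : Type u} [NormedAddCommGroup K] [InnerProductSpace ℂ K] [CompleteSpace K]
    {j : A →ₗ[ℂ] K} (X : Elt (MM j)) :
    tauL j (star X * X) = ((‖(X : K →L[ℂ] K) (j 1)‖ ^ 2 : ℝ) : ℂ) := by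
  rw [tauL_mul79]
  have : ((star X : Elt (MM j)) : K →L[ℂ] K) = star (X : K →L[ℂ] K) := rfl
  rw [this, star_star, inner_self_eq_norm_sq_to_K]
  push_cast
  rfl

theorem n2_tauL79 {A : Type u} [Ring A] [StarRing A] [Algebra ℂ A] [StarModule ℂ A]
    {K : Type u} [NormedAddCommGroup K] [InnerProductSpace ℂ K] [CompleteSpace K]
    {j : A →ₗ[ℂ] K} (X : Elt (MM j)) : n2 (tauL j) X = ‖(X : K →L[ℂ] K) (j 1)‖ := by
  unfold n2
  rw [tauL_star_mul79, Complex.ofReal_re, Real.sqrt_sq (norm_nonneg _)]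

theorem dense79 {A : Type u} [Ring A] [StarRing A] [Algebra ℂ A] [StarModule ℂ A]
    {τ : A →ₗ[ℂ] ℂ} {K : Type u} [NormedAddCommGroup K] [InnerProductSpace ℂ K] [CompleteSpace K]
    (h : TrAlg τ) {j : A →ₗ[ℂ] K} (hd : DenseRange j) (hj : ∀ x y, ⟪j x, j y⟫_ℂ = τ (star x * y))
    (hb : ∀ a : A, ∃ C : ℝ, ∀ b, n2 τ (a * b) ≤ C * n2 τ b) (X : Elt (MM j)) (ε : ℝ) (hε : 0 < ε) :
    ∃ a : A, ‖((X - LHom h hd hj hb a : Elt (MM j)) : K →L[ℂ] K) (j 1)‖ < ε := by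
  obtain ⟨a, ha⟩ := hd.exists_dist_lt ((X : K →L[ℂ] K) (j 1)) hε
  refine ⟨a, ?_⟩
  have e : ((X - LHom h hd hj hb a : Elt (MM j)) : K →L[ℂ] K) (j 1) =
      (X : K →L[ℂ] K) (j 1) - ((LHom h hd hj hb a : Elt (MM j)) : K →L[ℂ] K) (j 1) := rfl
  rw [e, LHom_j1, ← dist_eq_norm]
  exact ha

theorem norm_star_j1 {A : Type u} [Ring A] [StarRing A] [Algebra ℂ A] [StarModule ℂ A]
    {τ : A →ₗ[ℂ] ℂ} {K : Type u} [NormedAddCommGroup K] [InnerProductSpace ℂ K] [CompleteSpace K]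
    (h : TrAlg τ) {j : A →ₗ[ℂ] K} (hd : DenseRange j) (hj : ∀ x y, ⟪j x, j y⟫_ℂ = τ (star x * y))
    (hb : ∀ a : A, ∃ C : ℝ, ∀ b, n2 τ (a * b) ≤ C * n2 τ b) (X : K →L[ℂ] K) (hX : X ∈ MM j) :
    ‖(star X) (j 1)‖ = ‖X (j 1)‖ := by
  apply le_antisymm (norm_le79 h hd hj hb X hX)
  have h2 := norm_le79 h hd hj hb (star X) (star_mem hX)
  rwa [star_star] at h2

theorem tauL_tr {A : Type u} [Ring A] [StarRing A] [Algebra ℂ A] [StarModule ℂ A]
    {τ : A →ₗ[ℂ] ℂ} {K : Type u} [NormedAddCommGroup K] [InnerProductSpace ℂ K] [CompleteSpace K]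
    (h : TrAlg τ) {j : A →ₗ[ℂ] K} (hd : DenseRange j) (hj : ∀ x y, ⟪j x, j y⟫_ℂ = τ (star x * y))
    (hb : ∀ a : A, ∃ C : ℝ, ∀ b, n2 τ (a * b) ≤ C * n2 τ b) : TrAlg (tauL j) := by
  have comm1 : ∀ (a : A) (Y : Elt (MM j)), tauL j (LHom h hd hj hb a * Y) = tauL j (Y * LHom h hd hj hb a) := by
    intro a Y
    rw [tauL_mul79, tauL_mul79, LHom_j1, LHom_apply, star_Lm h hd hj hb, Lm_j h hd hj hb, mul_one]
    have e := inn_star79 h hd hj hb (Y : K →L[ℂ] K) Y.2 a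
    rw [← inner_conj_symm, ← e, inner_conj_symm]
  refine ⟨?_, ?_, ?_, ?_, ?_⟩
  · rw [tauL_apply]
    show ⟪j 1, j 1⟫_ℂ = 1
    rw [hj, star_one, one_mul, h.one]
  · intro X Y
    have key : ∀ ε : ℝ, 0 < ε → ‖tauL j (X * Y) - tauL j (Y * X)‖ ≤ ε * (2 * ‖(Y : K →L[ℂ] K) (j 1)‖) := by
      intro ε hε
      obtain ⟨a, ha⟩ := dense79 h hd hj hb X ε hε
      have e1 : tauL j (X * Y) - tauL j (Y * X) =
          tauL j ((X - LHom h hd hj hb a) * Y) - tauL j (Y * (X - LHom h hd hj hb a)) := by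
        rw [sub_mul, mul_sub, map_sub, map_sub, comm1 a Y]
        ring
      have e2 : ‖tauL j ((X - LHom h hd hj hb a) * Y)‖ ≤ ε * ‖(Y : K →L[ℂ] K) (j 1)‖ := by
        rw [tauL_mul79]
        refine (norm_inner_le_norm _ _).trans ?_
        apply mul_le_mul_of_nonneg_right _ (norm_nonneg _)
        exact (norm_le79 h hd hj hb _ (X - LHom h hd hj hb a).2).trans ha.le
      have e3 : ‖tauL j (Y * (X - LHom h hd hj hb a))‖ ≤ ε * ‖(Y : K →L[ℂ] K) (j 1)‖ := by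
        rw [tauL_mul79]
        refine (norm_inner_le_norm _ _).trans ?_
        rw [mul_comm]
        exact mul_le_mul ha.le (norm_le79 h hd hj hb _ Y.2) (norm_nonneg _) hε.le
      rw [e1]
      refine (norm_sub_le _ _).trans ?_
      linarith
    have h0 : ‖tauL j (X * Y) - tauL j (Y * X)‖ ≤ 0 := by
      apply le_of_forall_pos_le_add
      intro δ hδ
      have := key (δ / (2 * ‖(Y : K →L[ℂ] K) (j 1)‖ + 1)) (by positivity)
      refine this.trans ?_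
      rw [zero_add, div_mul_eq_mul_div, div_le_iff₀ (by positivity)]
      nlinarith [norm_nonneg ((Y : K →L[ℂ] K) (j 1))]
    exact sub_eq_zero.1 (norm_le_zero_iff.1 h0)
  · intro X
    rw [tauL_star_mul79]
    rw [Complex.zero_le_real]
    positivity
  · intro X
    rw [tauL_apply, tauL_apply]
    have : ((star X : Elt (MM j)) : K →L[ℂ] K) = star (X : K →L[ℂ] K) := rfl
    rw [this, ContinuousLinearMap.star_eq_adjoint, ContinuousLinearMap.adjoint_inner_right]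
    exact (inner_conj_symm _ _).symm
  · intro X hX
    rw [tauL_star_mul79] at hX
    have h1 : (X : K →L[ℂ] K) (j 1) = 0 := by
      have : ‖(X : K →L[ℂ] K) (j 1)‖ ^ 2 = 0 := by exact_mod_cast hX
      exact norm_eq_zero.1 (pow_eq_zero_iff (by norm_num) |>.1 this)
    apply Subtype.ext
    apply ext_j hd
    intro a
    have e1 : j a = Rm j a (j 1) := by rw [Rm_j h hd hj hb, one_mul]
    rw [e1, ← Rm_comm h hd hj hb _ X.2, h1, map_zero]
    rfl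

theorem dense_LHom {A : Type u} [Ring A] [StarRing A] [Algebra ℂ A] [StarModule ℂ A]
    {τ : A →ₗ[ℂ] ℂ} {K : Type u} [NormedAddCommGroup K] [InnerProductSpace ℂ K] [CompleteSpace K]
    (h : TrAlg τ) {j : A →ₗ[ℂ] K} (hd : DenseRange j) (hj : ∀ x y, ⟪j x, j y⟫_ℂ = τ (star x * y))
    (hb : ∀ a : A, ∃ C : ℝ, ∀ b, n2 τ (a * b) ≤ C * n2 τ b) (X : Elt (MM j)) (ε : ℝ) (hε : 0 < ε) :
    ∃ a : A, n2 (tauL j) (X - LHom h hd hj hb a) < ε := by
  obtain ⟨a, ha⟩ := dense79 h hd hj hb X ε hε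
  exact ⟨a, by rw [n2_tauL79]; exact ha⟩

end Pool.Agent.Helper278.HU
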