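import Mathlib
import Pool.Agent.Helper278.HU.Defs

set_option autoImplicit false
set_option linter.all false

open scoped InnerProductSpace ComplexOrder Topology
open Filter

namespace Pool.Agent.Helper278.HU

open Pool.Agent.Helper278.CE Pool.Agent.Helper436.AD

universe u

theorem asg_unitary899 {B : Type} [Ring B] [StarRing B] {p : Fin 13 → B} {w : Fin 6 → B}
    {z : Fin 2 → B} (hp : ∀ i, p i ∈ unitary B) (hw : ∀ i, w i ∈ unitary B)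
    (hz : ∀ i, z i ∈ unitary B) (i : Ix3) : asg p w z i ∈ unitary B := by
  rcases i with i | i | i
  · exact hp i
  · exact hw i
  · exact hz i

theorem asg_near899 {B : Type} [Ring B] [StarRing B] [Algebra ℂ B]
    {ρ : B →ₗ[ℂ] ℂ} {δ : ℝ} {p p' : Fin 13 → B} {w w' : Fin 6 → B}
    {z z' : Fin 2 → B} (hp : ∀ i, n2 ρ (p i - p' i) ≤ δ) (hw : ∀ i, n2 ρ (w i - w' i) ≤ δ)
    (hz : ∀ i, n2 ρ (z i - z' i) ≤ δ) (i : Ix3) :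
    n2 ρ (asg p w z i - asg p' w' z' i) ≤ δ := by
  rcases i with i | i | i
  · exact hp i
  · exact hw i
  · exact hz i

theorem sat_gen {B : Type} [Ring B] [StarRing B] [Algebra ℂ B] [StarModule ℂ B]
    {ρ : B →ₗ[ℂ] ℂ} (h : TrAlg ρ) (U0 : Set B) (hU : ∀ x ∈ U0, x ∈ unitary B)
    (hdense : ∀ x ∈ unitary B, ∀ ε : ℝ, 0 < ε → ∃ y ∈ U0, n2 ρ (x - y) ≤ ε) (f : Fm Ix3)
    (huc : ∀ ε : ℝ, 0 < ε → ∃ δ : ℝ, 0 < δ ∧ ∀ x y : Ix3 → B, (∀ i, x i ∈ unitary B) →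
      (∀ i, y i ∈ unitary B) → (∀ i, n2 ρ (x i - y i) ≤ δ) → |f.ev ρ x - f.ev ρ y| ≤ ε)
    (p : Fin 13 → B) (hp : ∀ i, p i ∈ unitary B)
    (hs : ∀ w : Fin 6 → B, (∀ i, w i ∈ U0) → ∃ z : Fin 2 → B, (∀ i, z i ∈ unitary B) ∧
      f.ev ρ (asg p w z) ≤ 0) : ∀ ε : ℝ, 0 < ε → Sat f ρ ε := by
  intro ε hε
  obtain ⟨δ, hδ, hδ'⟩ := huc ε hε
  refine ⟨p, fun i => ⟨hp i, trivial⟩, fun w hw => ?_⟩
  choose w' hw' hw'' using fun i => hdense (w i) (hw i).1 δ hδ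
  obtain ⟨z, hz, hfz⟩ := hs w' hw'
  refine ⟨z, fun i => ⟨hz i, trivial⟩, ?_⟩
  have h0 : ∀ x : B, n2 ρ (x - x) ≤ δ := fun x => by
    rw [sub_self, h.n2_zero]
    exact hδ.le
  have h1 := hδ' (asg p w z) (asg p w' z) (asg_unitary899 hp (fun i => (hw i).1) hz)
    (asg_unitary899 hp (fun i => hU _ (hw' i)) hz)
    (asg_near899 (fun i => h0 _) hw'' (fun i => h0 _))
  have h2 := (abs_le.1 h1).2
  linarith

theorem unsat_gen {B : Type} [Ring B] [StarRing B] [Algebra ℂ B] [StarModule ℂ B]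
    {ρ : B →ₗ[ℂ] ℂ} (h : TrAlg ρ) (U0 : Set B) (hU : ∀ x ∈ U0, x ∈ unitary B)
    (hdense : ∀ x ∈ unitary B, ∀ ε : ℝ, 0 < ε → ∃ y ∈ U0, n2 ρ (x - y) ≤ ε) (f : Fm Ix3)
    (huc : ∀ ε : ℝ, 0 < ε → ∃ δ : ℝ, 0 < δ ∧ ∀ x y : Ix3 → B, (∀ i, x i ∈ unitary B) →
      (∀ i, y i ∈ unitary B) → (∀ i, n2 ρ (x i - y i) ≤ δ) → |f.ev ρ x - f.ev ρ y| ≤ ε)
    (c : ℝ) (hc : 0 < c)
    (hs : ∀ p : Fin 13 → B, (∀ i, p i ∈ U0) → ∃ w : Fin 6 → B, (∀ i, w i ∈ unitary B) ∧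
      ∀ z : Fin 2 → B, (∀ i, z i ∈ U0) → c ≤ f.ev ρ (asg p w z)) : ¬ Sat f ρ (c / 2) := by
  rintro ⟨p, hp, hsat⟩
  obtain ⟨δ, hδ, hδ'⟩ := huc (c / 4) (by linarith)
  choose p' hp' hp'' using fun i => hdense (p i) (hp i).1 δ hδ
  obtain ⟨w, hw, hwz⟩ := hs p' hp'
  obtain ⟨z, hz, hfz⟩ := hsat w fun i => ⟨hw i, trivial⟩
  choose z' hz' hz'' using fun i => hdense (z i) (hz i).1 δ hδ
  have h0 : ∀ x : B, n2 ρ (x - x) ≤ δ := fun x => by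
    rw [sub_self, h.n2_zero]
    exact hδ.le
  have h1 := hδ' (asg p w z) (asg p' w z') (asg_unitary899 (fun i => (hp i).1) hw
    (fun i => (hz i).1)) (asg_unitary899 (fun i => hU _ (hp' i)) hw (fun i => hU _ (hz' i)))
    (asg_near899 hp'' (fun i => h0 _) hz'')
  have h2 := (abs_le.1 h1).1
  have h3 := hwz z' hz'
  linarith

end Pool.Agent.Helper278.HU
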