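import Mathlib
import Pool.Agent.Helper278.HU.Defs
import Pool.Agent.Helper278.HU.H2
import Pool.Agent.Helper278.HU.H4

set_option autoImplicit false
set_option linter.all false

open scoped InnerProductSpace ComplexOrder Topology
open Filter

namespace Pool.Agent.Helper278.HU

open Pool.Agent.Helper278.CE Pool.Agent.Helper436.AD

universe u

theorem mtrL_star_mul_636 {A : Type} [Ring A] [StarRing A] [Algebra ℂ A]
    (τ : A →ₗ[ℂ] ℂ) (x : Matrix (Fin 3) (Fin 3) A) :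
    mtrL τ (star x * x) = (∑ i, ∑ k, τ (star (x k i) * x k i)) / 3 := by
  show mtr 3 τ (star x * x) = _
  unfold mtr
  simp only [Matrix.mul_apply, Matrix.star_apply, map_sum]
  norm_num

theorem mtrL_trAlg_636 {A : Type} [Ring A] [StarRing A] [Algebra ℂ A] [StarModule ℂ A]
    {τ : A →ₗ[ℂ] ℂ} (h : TrAlg τ) : TrAlg (mtrL τ) where
  one := by
    show mtr 3 τ 1 = 1
    unfold mtr
    simp [h.one]
  comm x y := by
    show mtr 3 τ (x * y) = mtr 3 τ (y * x)
    unfold mtr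
    congr 1
    simp only [Matrix.mul_apply, map_sum]
    rw [Finset.sum_comm]
    exact Finset.sum_congr rfl fun i _ => Finset.sum_congr rfl fun k _ => h.comm _ _
  nonneg x := by
    rw [mtrL_star_mul_636]
    have h1 : (0 : ℂ) ≤ ∑ i, ∑ k, τ (star (x k i) * x k i) :=
      Finset.sum_nonneg fun i _ => Finset.sum_nonneg fun k _ => h.nonneg _
    rw [Complex.nonneg_iff] at h1 ⊢
    have e : (∑ i, ∑ k, τ (star (x k i) * x k i)) / 3 =
        ((1 / 3 : ℝ) : ℂ) * (∑ i, ∑ k, τ (star (x k i) * x k i)) := by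
      push_cast; ring
    rw [e, Complex.re_ofReal_mul, Complex.im_ofReal_mul]
    refine ⟨by have := h1.1; positivity, ?_⟩
    rw [← h1.2, mul_zero]
  conj x := by
    show mtr 3 τ (star x) = star (mtr 3 τ x)
    unfold mtr
    simp only [Matrix.star_apply, h.conj]
    rw [star_div₀, star_sum]
    simp
  faithful x hx := by
    rw [mtrL_star_mul_636, div_eq_zero_iff] at hx
    have hx2 : ∑ i, ∑ k, τ (star (x k i) * x k i) = 0 := hx.resolve_right (by norm_num)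
    rw [Finset.sum_eq_zero_iff_of_nonneg
      (fun i _ => Finset.sum_nonneg fun k _ => h.nonneg _)] at hx2
    ext k i
    have h3 := hx2 i (Finset.mem_univ _)
    rw [Finset.sum_eq_zero_iff_of_nonneg (fun k _ => h.nonneg _)] at h3
    exact h.faithful _ (h3 k (Finset.mem_univ _))

theorem closS_sub_636 {A : Type} [Ring A] [StarRing A] [Algebra ℂ A] [StarModule ℂ A]
    {φ : A →ₗ[ℂ] ℂ} (h : TrAlg φ) {S : Set A}
    {T : StarSubalgebra ℂ A} (hT : (T : Set A) = closS φ S) : ∀ y ∈ S, y ∈ T := by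
  intro y hy
  have h1 : y ∈ (T : Set A) := by
    rw [hT]
    exact fun δ hδ => ⟨y, hy, by rw [sub_self, h.n2_zero]; exact hδ⟩
  exact h1

theorem approx_636 {A : Type} [Ring A] [StarRing A] [Algebra ℂ A] [StarModule ℂ A]
    {φ : A →ₗ[ℂ] ℂ} (h : TrAlg φ) {S : Set A}
    {T : StarSubalgebra ℂ A} (hT : (T : Set A) = closS φ S)
    {P : Type} [Ring P] [StarRing P] [Algebra ℂ P] [StarModule ℂ P] {τ : P →ₗ[ℂ] ℂ}
    (ht : TrAlg τ) (e : T →⋆ₐ[ℂ] P) (he : ∀ a : T, τ (e a) = φ (a : A))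
    (hd : ∀ (X : P) (ε : ℝ), 0 < ε → ∃ a : T, n2 τ (X - e a) < ε) (X : P)
    (ε : ℝ) (hε : 0 < ε) :
    ∃ s : T, (s : A) ∈ S ∧ n2 τ (X - e s) ≤ ε := by
  obtain ⟨a, ha⟩ := hd X (ε / 2) (by positivity)
  have haS : (a : A) ∈ closS φ S := by
    rw [← hT]; exact a.2
  obtain ⟨s, hsS, hs⟩ := haS (ε / 2) (by positivity)
  refine ⟨⟨s, closS_sub_636 h hT s hsS⟩, hsS, ?_⟩
  have hn : ∀ y : T, n2 τ (e y) = n2 φ (y : A) := by
    intro y
    unfold n2
    rw [← map_star, ← map_mul, he]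
    rfl
  have h3 := ht.n2_tri X (e a) (e ⟨s, closS_sub_636 h hT s hsS⟩)
  have h4 : n2 τ (e a - e ⟨s, closS_sub_636 h hT s hsS⟩) = n2 φ ((a : A) - s) := by
    rw [← map_sub, hn]
    rfl
  rw [h4] at h3
  linarith

theorem dense_U {A : Type} [Ring A] [StarRing A] [Algebra ℂ A] [StarModule ℂ A]
    {φ : A →ₗ[ℂ] ℂ} (h : TrAlg φ) {S : Set A} {p : Fin 13 → A} {c : ℝ} (hG : Good φ S p c)
    {T : StarSubalgebra ℂ A} (hT : (T : Set A) = closS φ S)
    {P : Type} [Ring P] [StarRing P] [Algebra ℂ P] [StarModule ℂ P] {τ : P →ₗ[ℂ] ℂ}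
    (ht : TrAlg τ) (e : T →⋆ₐ[ℂ] P) (he : ∀ a : T, τ (e a) = φ (a : A))
    (hd : ∀ (X : P) (ε : ℝ), 0 < ε → ∃ a : T, n2 τ (X - e a) < ε) (X : P)
    (hX : X ∈ unitary P) (ε : ℝ) (hε : 0 < ε) :
    ∃ v : T, (v : A) ∈ unitary A ∧ (v : A) ∈ S ∧ n2 τ (X - e v) ≤ ε := by
  obtain ⟨s, hsS, hs⟩ := approx_636 h hT ht e he hd X (ε / 2) (by positivity)
  have hST := closS_sub_636 h hT
  obtain ⟨v, hv, hvS, b, hb, hsv⟩ := hG.polar s hsS
  have hsv' : s = (⟨v, hST v hvS⟩ : T) * (star (⟨b, hST b hb⟩ : T) * ⟨b, hST b hb⟩) :=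
    Subtype.ext hsv
  have hev : e ⟨v, hST v hvS⟩ ∈ unitary P := by
    rw [Unitary.mem_iff] at hv ⊢
    constructor
    · rw [← map_star, ← map_mul, ← map_one e]
      congr 1
      exact Subtype.ext hv.1
    · rw [← map_star, ← map_mul, ← map_one e]
      congr 1
      exact Subtype.ext hv.2
  have key := near_polar ht (s := e s) (b := e ⟨b, hST b hb⟩) hev hX (by
    rw [hsv', map_mul, map_mul, map_star])
  refine ⟨⟨v, hST v hvS⟩, hv, hvS, ?_⟩
  linarith

theorem dense_U3 {A : Type} [Ring A] [StarRing A] [Algebra ℂ A] [StarModule ℂ A]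
    {φ : A →ₗ[ℂ] ℂ} (h : TrAlg φ) {S : Set A} {p : Fin 13 → A} {c : ℝ} (hG : Good φ S p c)
    {T : StarSubalgebra ℂ A} (hT : (T : Set A) = closS φ S)
    {P : Type} [Ring P] [StarRing P] [Algebra ℂ P] [StarModule ℂ P] {τ : P →ₗ[ℂ] ℂ}
    (ht : TrAlg τ) (e : T →⋆ₐ[ℂ] P) (he : ∀ a : T, τ (e a) = φ (a : A))
    (hd : ∀ (X : P) (ε : ℝ), 0 < ε → ∃ a : T, n2 τ (X - e a) < ε)
    (X : Matrix (Fin 3) (Fin 3) P) (hX : X ∈ unitary (Matrix (Fin 3) (Fin 3) P))
    (ε : ℝ) (hε : 0 < ε) :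
    ∃ v : Matrix (Fin 3) (Fin 3) T, mapM T.subtype v ∈ unitary (Matrix (Fin 3) (Fin 3) A) ∧
      (∀ a b, (v a b : A) ∈ S) ∧ n2 (mtrL τ) (X - mapM e v) ≤ ε := by
  have hST := closS_sub_636 h hT
  have h0 : ∀ i j, ∃ s : T, (s : A) ∈ S ∧ n2 τ (X i j - e s) ≤ ε / 20 := fun i j =>
    approx_636 h hT ht e he hd (X i j) (ε / 20) (by positivity)
  choose s hsS hs using h0
  obtain ⟨v, hv, hvS, b, hb, hsv⟩ := hG.polar3 (Matrix.of fun i j => (s i j : A)) hsS
  let v' : Matrix (Fin 3) (Fin 3) T := Matrix.of fun i j => ⟨v i j, hST _ (hvS i j)⟩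
  let b' : Matrix (Fin 3) (Fin 3) T := Matrix.of fun i j => ⟨b i j, hST _ (hb i j)⟩
  have hv' : mapM T.subtype v' = v := by ext i j; rfl
  have hb' : mapM T.subtype b' = b := by ext i j; rfl
  have hinj : Function.Injective (mapM T.subtype) := by
    intro x y hxy
    ext i j
    exact congrFun (congrFun hxy i) j
  have hs' : mapM T.subtype (Matrix.of s) = Matrix.of fun i j => (s i j : A) := by ext i j; rfl
  have hsv' : Matrix.of s = v' * (star b' * b') := by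
    apply hinj
    rw [hs', map_mul, map_mul, map_star, hv', hb', hsv]
  have hev : mapM e v' ∈ unitary (Matrix (Fin 3) (Fin 3) P) := by
    rw [Unitary.mem_iff] at hv ⊢
    constructor
    · rw [← map_star, ← map_mul, ← map_one (mapM e)]
      congr 1
      apply hinj
      rw [map_mul, map_star, hv', map_one, hv.1]
    · rw [← map_star, ← map_mul, ← map_one (mapM e)]
      congr 1
      apply hinj
      rw [map_mul, map_star, hv', map_one, hv.2]
  have key := near_polar (mtrL_trAlg_636 ht) (s := mapM e (Matrix.of s)) (b := mapM e b') hev hX (by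
    rw [hsv', map_mul, map_mul, map_star])
  refine ⟨v', by rw [hv']; exact hv, fun i j => hvS i j, ?_⟩
  have h5 := n2_mtrL_le ht (X - mapM e (Matrix.of s))
  have h6 : ∑ i, ∑ j, n2 τ ((X - mapM e (Matrix.of s)) i j) ≤
      ∑ _i : Fin 3, ∑ _j : Fin 3, ε / 20 :=
    Finset.sum_le_sum fun i _ => Finset.sum_le_sum fun j _ => hs i j
  have h7 : ∑ _i : Fin 3, ∑ _j : Fin 3, ε / 20 = 9 * (ε / 20) := by
    simp only [Finset.sum_const, Finset.card_univ, Fintype.card_fin, nsmul_eq_mul]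
    push_cast
    ring
  have h8 := h5.trans (h6.trans_eq h7)
  linarith

end Pool.Agent.Helper278.HU
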