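import Mathlib
import Pool.Agent.Helper278.HU.Defs

set_option autoImplicit false
set_option linter.all false

open scoped InnerProductSpace ComplexOrder Topology
open Filter

namespace Pool.Agent.Helper278.HU

open Pool.Agent.Helper278.CE Pool.Agent.Helper436.AD

universe u

theorem n2_unitary_left581 {P : Type} [Ring P] [StarRing P] [Algebra ℂ P]
    {τ : P →ₗ[ℂ] ℂ} {u : P} (hu : star u * u = 1) (x : P) : n2 τ (u * x) = n2 τ x := by
  unfold n2
  have e : star (u * x) * (u * x) = star x * x := by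
    rw [star_mul, mul_assoc, ← mul_assoc (star u), hu, one_mul]
  rw [e]

theorem n2_unitary_right581 {P : Type} [Ring P] [StarRing P] [Algebra ℂ P] [StarModule ℂ P]
    {τ : P →ₗ[ℂ] ℂ} (ht : TrAlg τ) {u : P} (hu : u * star u = 1) (x : P) :
    n2 τ (x * u) = n2 τ x := by
  unfold n2
  have e : τ (star (x * u) * (x * u)) = τ (star x * x) := by
    rw [star_mul, ht.comm, mul_assoc, ← mul_assoc u, hu, one_mul, ht.comm]
  rw [e]

theorem n2_scalar581 {P : Type} [Ring P] [StarRing P] [Algebra ℂ P] [StarModule ℂ P]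
    {τ : P →ₗ[ℂ] ℂ} (ht : TrAlg τ) (z : ℂ) : n2 τ (z • (1 : P)) = ‖z‖ := by
  unfold n2
  have e : (τ (star (z • (1 : P)) * (z • (1 : P)))).re = ‖z‖ ^ 2 := by
    rw [star_smul, star_one, smul_mul_smul_comm, one_mul, map_smul, ht.one, smul_eq_mul, mul_one]
    rw [← Complex.normSq_eq_norm_sq]
    have h2 : star z * z = (Complex.normSq z : ℂ) := Complex.normSq_eq_conj_mul_self.symm
    rw [h2, Complex.ofReal_re]
  rw [e, Real.sqrt_sq (norm_nonneg z)]

theorem n2_e581 {A : Type} [Ring A] [StarRing A] [Algebra ℂ A] [StarModule ℂ A]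
    {φ : A →ₗ[ℂ] ℂ} {T : StarSubalgebra ℂ A}
    {P : Type} [Ring P] [StarRing P] [Algebra ℂ P] [StarModule ℂ P] {τ : P →ₗ[ℂ] ℂ}
    (e : T →⋆ₐ[ℂ] P) (he : ∀ a : T, τ (e a) = φ (a : A)) (a : T) :
    n2 τ (e a) = n2 φ (a : A) := by
  unfold n2
  have h1 : star (e a) * e a = e (star a * a) := by rw [map_mul, map_star]
  rw [h1, he]
  rfl

theorem sub_T581 {A : Type} [Ring A] [StarRing A] [Algebra ℂ A] [StarModule ℂ A]
    {φ : A →ₗ[ℂ] ℂ} (h : TrAlg φ) {S : Set A}
    {T : StarSubalgebra ℂ A} (hT : (T : Set A) = closS φ S) : ∀ s ∈ S, s ∈ T := by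
  intro s hs
  have : s ∈ (T : Set A) := by
    rw [hT]
    intro ε hε
    refine ⟨s, hs, ?_⟩
    rw [sub_self, h.n2_zero]
    exact hε
  exact this

theorem center_P {A : Type} [Ring A] [StarRing A] [Algebra ℂ A] [StarModule ℂ A]
    {φ : A →ₗ[ℂ] ℂ} (h : TrAlg φ) {S : Set A} {p : Fin 13 → A} {c : ℝ} (hG : Good φ S p c)
    {T : StarSubalgebra ℂ A} (hT : (T : Set A) = closS φ S)
    {P : Type} [Ring P] [StarRing P] [Algebra ℂ P] [StarModule ℂ P] {τ : P →ₗ[ℂ] ℂ}
    (ht : TrAlg τ) (e : T →⋆ₐ[ℂ] P) (he : ∀ a : T, τ (e a) = φ (a : A))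
    (hd : ∀ (X : P) (ε : ℝ), 0 < ε → ∃ a : T, n2 τ (X - e a) < ε) (X : P)
    (hX : ∀ Y, X * Y = Y * X) : ∃ c : ℂ, X = c • (1 : P) := by
  obtain ⟨g, hg, hgap⟩ := hG.gap
  have hST := sub_T581 h hT
  have hne := n2_e581 e he
  refine ⟨τ X, ?_⟩
  have hmain : ∀ ε : ℝ, 0 < ε → n2 τ (X - τ X • (1 : P)) ≤ 202 * ε := by
    intro ε hε
    obtain ⟨a, ha⟩ := hd X ε hε
    have hl : ∀ l, n2 φ (g l * (a : A) - (a : A) * g l) ≤ 2 * ε := by
      intro l
      have hgl := Unitary.mem_iff.mp (hg l).1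
      have e1 : g l * (a : A) - (a : A) * g l =
          (((⟨g l, hST _ (hg l).2⟩ : T) * a - a * (⟨g l, hST _ (hg l).2⟩ : T) : T) : A) := rfl
      rw [e1, ← hne, map_sub, map_mul, map_mul]
      set u : P := e ⟨g l, hST _ (hg l).2⟩ with hu
      have hu1 : star u * u = 1 := by
        rw [hu, ← map_star, ← map_mul]
        have : (star (⟨g l, hST _ (hg l).2⟩ : T) * ⟨g l, hST _ (hg l).2⟩ : T) = 1 :=
          Subtype.ext hgl.1
        rw [this, map_one]
      have hu2 : u * star u = 1 := by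
        rw [hu, ← map_star, ← map_mul]
        have : ((⟨g l, hST _ (hg l).2⟩ : T) * star ⟨g l, hST _ (hg l).2⟩ : T) = 1 :=
          Subtype.ext hgl.2
        rw [this, map_one]
      have e2 : u * e a - e a * u = u * (e a - X) - (e a - X) * u := by
        rw [mul_sub, sub_mul, hX u]
        abel
      rw [e2]
      refine (ht.n2_sub_le _ _).trans ?_
      rw [n2_unitary_left581 hu1, n2_unitary_right581 ht hu2, ht.n2_sub_comm]
      linarith
    have h1 : n2 φ ((a : A) - φ (a : A) • (1 : A)) ≤ 200 * ε := by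
      refine (hgap _).trans ?_
      have h2 : ∑ l, n2 φ (g l * (a : A) - (a : A) * g l) ≤ ∑ _l : Fin 5, 2 * ε :=
        Finset.sum_le_sum fun l _ => hl l
      rw [Finset.sum_const, Finset.card_univ, Fintype.card_fin, nsmul_eq_mul] at h2
      push_cast at h2
      linarith
    have h2 : n2 τ (e a - φ (a : A) • (1 : P)) ≤ 200 * ε := by
      have e3 : e a - φ (a : A) • (1 : P) = e (a - φ (a : A) • (1 : T)) := by
        rw [map_sub, map_smul, map_one]
      rw [e3, hne]
      exact h1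
    have h3 : n2 τ (φ (a : A) • (1 : P) - τ X • (1 : P)) ≤ ε := by
      rw [← sub_smul, n2_scalar581 ht, ← he, ← map_sub]
      refine (ht.norm_le _).trans ?_
      rw [ht.n2_sub_comm]
      exact ha.le
    have h4 := ht.n2_tri X (e a) (τ X • (1 : P))
    have h5 := ht.n2_tri (e a) (φ (a : A) • (1 : P)) (τ X • (1 : P))
    linarith
  have hz : n2 τ (X - τ X • (1 : P)) = 0 := by
    refine le_antisymm ?_ (n2_nonneg _ _)
    refine le_of_forall_pos_le_add fun ε hε => ?_
    have := hmain (ε / 202) (by positivity)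
    linarith
  have h6 := ht.faithful (X - τ X • (1 : P)) (by
    apply Complex.ext
    · rw [← ht.n2_sq, hz]
      simp
    · rw [ht.im_zero]
      simp)
  exact sub_eq_zero.mp h6

theorem infinite_P {A : Type} [Ring A] [StarRing A] [Algebra ℂ A] [StarModule ℂ A]
    {φ : A →ₗ[ℂ] ℂ} (h : TrAlg φ) {S : Set A} {p : Fin 13 → A} {c : ℝ} (hG : Good φ S p c)
    {T : StarSubalgebra ℂ A} (hT : (T : Set A) = closS φ S)
    {P : Type} [Ring P] [StarRing P] [Algebra ℂ P] [StarModule ℂ P] {τ : P →ₗ[ℂ] ℂ}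
    (ht : TrAlg τ) (e : T →⋆ₐ[ℂ] P) (he : ∀ a : T, τ (e a) = φ (a : A)) :
    ¬ FiniteDimensional ℂ P := by
  intro hfd
  obtain ⟨W, hW, hort⟩ := hG.inf
  have hST := sub_T581 h hT
  have hk : ∀ i k, τ (star (e ⟨W k, hST _ (hW k).2⟩) * e ⟨W i, hST _ (hW i).2⟩) =
      φ (star (W k) * W i) := by
    intro i k
    rw [← map_star, ← map_mul, he]
    rfl
  have hli : LinearIndependent ℂ (fun i : ℕ => e ⟨W i, hST _ (hW i).2⟩) := by
    rw [linearIndependent_iff']
    intro s c hc k hks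
    have h1 := congrArg (fun Y => τ (star (e ⟨W k, hST _ (hW k).2⟩) * Y)) hc
    simp only [Finset.mul_sum, map_sum, mul_smul_comm, map_smul, mul_zero, map_zero,
      smul_eq_mul] at h1
    rw [Finset.sum_eq_single k] at h1
    · rw [hk, (Unitary.mem_iff.mp (hW k).1).1, h.one, mul_one] at h1
      exact h1
    · intro i _ hik
      rw [hk, hort k i (Ne.symm hik), mul_zero]
    · intro hk'
      exact absurd hks hk'
  have := hli.finite
  exact not_finite ℕ

end Pool.Agent.Helper278.HU
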