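import Mathlib
import Pool.Agent.Helper278.HU.Defs
import Pool.Agent.Helper278.HU.H1

set_option autoImplicit false
set_option linter.all false

open scoped InnerProductSpace ComplexOrder Topology
open Filter

namespace Pool.Agent.Helper278.HU

open Pool.Agent.Helper278.CE Pool.Agent.Helper436.AD

universe u

theorem exists_closed_seed_753 {A β : Type} [Finite β] (F : Set ((β → A) → A)) (hF : F.Countable)
    (s0 : A) :
    ∃ S : Set A, s0 ∈ S ∧ S.Countable ∧ ∀ f ∈ F, ∀ x : β → A, (∀ i, x i ∈ S) → f x ∈ S := by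
  classical
  let T : ℕ → Set A := fun n => Nat.rec (motive := fun _ => Set A) {s0}
    (fun _ S => S ∪ ⋃ f ∈ F, f '' (Set.pi Set.univ fun _ => S)) n
  have hT0 : T 0 = {s0} := rfl
  have hTs : ∀ n, T (n + 1) = T n ∪ ⋃ f ∈ F, f '' (Set.pi Set.univ fun _ => T n) := fun n => rfl
  have hc : ∀ n, (T n).Countable := by
    intro n
    induction n with
    | zero => rw [hT0]; exact Set.countable_singleton _
    | succ n ih =>
      rw [hTs]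
      refine ih.union (hF.biUnion fun f _ => ?_)
      exact (Set.countable_univ_pi fun _ => ih).image f
  have hmono : Monotone T := monotone_nat_of_le_succ fun n => by rw [hTs]; exact Set.subset_union_left
  refine ⟨⋃ n, T n, Set.mem_iUnion.2 ⟨0, by rw [hT0]; rfl⟩, Set.countable_iUnion hc, ?_⟩
  intro f hf x hx
  have h1 : ∀ i, ∃ n, x i ∈ T n := fun i => Set.mem_iUnion.1 (hx i)
  choose n hn using h1
  obtain ⟨N, hN⟩ := (Set.finite_range n).bddAbove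
  refine Set.mem_iUnion.2 ⟨N + 1, ?_⟩
  rw [hTs]
  refine Or.inr (Set.mem_biUnion hf ⟨x, ?_, rfl⟩)
  intro i _
  exact hmono (hN ⟨i, rfl⟩) (hn i)

theorem exists_closed_fam_753 {A β ι : Type} [Finite β] [Countable ι] (Φ : ι → (β → A) → A) (s0 : A) :
    ∃ S : Set A, s0 ∈ S ∧ S.Countable ∧ ∀ i, ∀ x : β → A, (∀ t, x t ∈ S) → Φ i x ∈ S := by
  obtain ⟨S, h0, h1, h2⟩ := exists_closed_seed_753 (Set.range Φ) (Set.countable_range Φ) s0
  exact ⟨S, h0, h1, fun i x hx => h2 _ ⟨i, rfl⟩ x hx⟩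

theorem exists_good {A : Type} [Ring A] [StarRing A] [Algebra ℂ A] [StarModule ℂ A]
    {φ : A →ₗ[ℂ] ℂ}
    (polar : ∀ x : A, ∃ v ∈ unitary A, ∃ b : A, x = v * (star b * b))
    (polar3 : ∀ x : Matrix (Fin 3) (Fin 3) A, ∃ v ∈ unitary (Matrix (Fin 3) (Fin 3) A),
      ∃ b : Matrix (Fin 3) (Fin 3) A, x = v * (star b * b))
    (sat : ∃ p : Fin 13 → A, UU Set.univ p ∧ ∀ w : Fin 6 → A, UU Set.univ w →
      ∃ z : Fin 2 → A, UU Set.univ z ∧ FF (10 ^ 8) φ p w z ≤ 0)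
    (unsat : ∃ c : ℝ, 0 < c ∧ ∀ p : Fin 13 → Matrix (Fin 3) (Fin 3) A, UU Set.univ p →
      ∃ w : Fin 6 → Matrix (Fin 3) (Fin 3) A, UU Set.univ w ∧
        ∀ z : Fin 2 → Matrix (Fin 3) (Fin 3) A, UU Set.univ z →
          c ≤ FF (10 ^ 8) (mtr 3 φ) p w z)
    (gap : ∃ g : Fin 5 → A, (∀ l, g l ∈ unitary A) ∧
      ∀ x, n2 φ (x - φ x • (1 : A)) ≤ 20 * ∑ l, n2 φ (g l * x - x * g l))
    (inf : ∃ W : ℕ → A, (∀ i, W i ∈ unitary A) ∧ ∀ i j, i ≠ j → φ (star (W i) * W j) = 0) :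
    ∃ (S : Set A) (p : Fin 13 → A) (c : ℝ), 0 < c ∧ Good φ S p c := by
  classical
  choose v hv b hb using polar
  choose V3 hV3 B3 hB3 using polar3
  obtain ⟨p, hp, hsat⟩ := sat
  obtain ⟨c, hc, hunsat⟩ := unsat
  obtain ⟨g, hg, hgap⟩ := gap
  obtain ⟨W, hW, hW2⟩ := inf
  have hsat' : ∀ w : Fin 6 → A, ∃ z : Fin 2 → A, UU Set.univ w →
      (UU Set.univ z ∧ FF (10 ^ 8) φ p w z ≤ 0) := by
    intro w
    by_cases h : UU Set.univ w
    · obtain ⟨z, hz⟩ := hsat w h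
      exact ⟨z, fun _ => hz⟩
    · exact ⟨0, fun h' => absurd h' h⟩
  choose Z hZ using hsat'
  have hunsat' : ∀ q : Fin 13 → Matrix (Fin 3) (Fin 3) A, ∃ w : Fin 6 → Matrix (Fin 3) (Fin 3) A,
      UU Set.univ q → (UU Set.univ w ∧
        ∀ z : Fin 2 → Matrix (Fin 3) (Fin 3) A, UU Set.univ z →
          c ≤ FF (10 ^ 8) (mtr 3 φ) q w z) := by
    intro q
    by_cases h : UU Set.univ q
    · obtain ⟨w, hw⟩ := hunsat q h
      exact ⟨w, fun _ => hw⟩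
    · exact ⟨0, fun h' => absurd h' h⟩
  choose Wt hWt using hunsat'
  let β := Fin 13 × Fin 3 × Fin 3
  let Φ : (Fin 13 ⊕ Fin 5 ⊕ ℕ ⊕ (ℚ × ℚ) ⊕ Fin 5 ⊕ (Fin 3 × Fin 3) ⊕ (Fin 3 × Fin 3) ⊕ Fin 2 ⊕
      (Fin 6 × Fin 3 × Fin 3)) → (β → A) → A :=
    Sum.elim (fun i _ => p i) <| Sum.elim (fun l _ => g l) <| Sum.elim (fun n _ => W n) <|
      Sum.elim (fun qr x => (((qr.1 : ℚ) : ℂ) + ((qr.2 : ℚ) : ℂ) * Complex.I) • x (0, 0, 0)) <|
      Sum.elim (fun k x => (![x (0, 0, 0) + x (1, 0, 0), x (0, 0, 0) * x (1, 0, 0),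
        Star.star (x (0, 0, 0)), v (x (0, 0, 0)), b (x (0, 0, 0))] : Fin 5 → A) k) <|
      Sum.elim (fun ij x => V3 (Matrix.of fun s t => x (0, s, t)) ij.1 ij.2) <|
      Sum.elim (fun ij x => B3 (Matrix.of fun s t => x (0, s, t)) ij.1 ij.2) <|
      Sum.elim (fun l x => Z (fun k : Fin 6 => x (Fin.castLE (by norm_num) k, 0, 0)) l)
        (fun lij x => Wt (fun k : Fin 13 => Matrix.of fun s t => x (k, s, t)) lij.1 lij.2.1 lij.2.2)
  obtain ⟨S, hS1, hSc, hS⟩ := exists_closed_fam_753 Φ (1 : A)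
  have e_p : ∀ i, p i ∈ S := fun i => hS (Sum.inl i) (fun _ => 1) (fun _ => hS1)
  have e_g : ∀ l, g l ∈ S := fun l => hS (Sum.inr (Sum.inl l)) (fun _ => 1) (fun _ => hS1)
  have e_W : ∀ n, W n ∈ S := fun n => hS (Sum.inr (Sum.inr (Sum.inl n))) (fun _ => 1) (fun _ => hS1)
  have e_smul : ∀ (q r : ℚ), ∀ x ∈ S, ((q : ℂ) + (r : ℂ) * Complex.I) • x ∈ S := fun q r x hx =>
    hS (Sum.inr (Sum.inr (Sum.inr (Sum.inl (q, r))))) (fun _ => x) (fun _ => hx)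
  have e_two : ∀ x ∈ S, ∀ y ∈ S, ∀ t : β, (fun t : β => if t.1 = 0 then x else y) t ∈ S := by
    intro x hx y hy t
    show (if t.1 = 0 then x else y) ∈ S
    split_ifs
    · exact hx
    · exact hy
  have e_add : ∀ x ∈ S, ∀ y ∈ S, x + y ∈ S := fun x hx y hy =>
    hS (Sum.inr (Sum.inr (Sum.inr (Sum.inr (Sum.inl 0))))) (fun t => if t.1 = 0 then x else y)
      (e_two x hx y hy)
  have e_mul : ∀ x ∈ S, ∀ y ∈ S, x * y ∈ S := fun x hx y hy =>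
    hS (Sum.inr (Sum.inr (Sum.inr (Sum.inr (Sum.inl 1))))) (fun t => if t.1 = 0 then x else y)
      (e_two x hx y hy)
  have e_star : ∀ x ∈ S, Star.star x ∈ S := fun x hx =>
    hS (Sum.inr (Sum.inr (Sum.inr (Sum.inr (Sum.inl 2))))) (fun _ => x) (fun _ => hx)
  have e_v : ∀ x ∈ S, v x ∈ S := fun x hx =>
    hS (Sum.inr (Sum.inr (Sum.inr (Sum.inr (Sum.inl 3))))) (fun _ => x) (fun _ => hx)
  have e_b : ∀ x ∈ S, b x ∈ S := fun x hx =>
    hS (Sum.inr (Sum.inr (Sum.inr (Sum.inr (Sum.inl 4))))) (fun _ => x) (fun _ => hx)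
  have e_V3 : ∀ x : Matrix (Fin 3) (Fin 3) A, (∀ i j, x i j ∈ S) → ∀ i j, V3 x i j ∈ S :=
    fun x hx i j =>
      hS (Sum.inr (Sum.inr (Sum.inr (Sum.inr (Sum.inr (Sum.inl (i, j)))))))
        (fun t => x t.2.1 t.2.2) (fun t => hx _ _)
  have e_B3 : ∀ x : Matrix (Fin 3) (Fin 3) A, (∀ i j, x i j ∈ S) → ∀ i j, B3 x i j ∈ S :=
    fun x hx i j =>
      hS (Sum.inr (Sum.inr (Sum.inr (Sum.inr (Sum.inr (Sum.inr (Sum.inl (i, j))))))))
        (fun t => x t.2.1 t.2.2) (fun t => hx _ _)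
  have e_Z : ∀ w : Fin 6 → A, (∀ i, w i ∈ S) → ∀ l, Z w l ∈ S := by
    intro w hw l
    have h := hS (Sum.inr (Sum.inr (Sum.inr (Sum.inr (Sum.inr (Sum.inr (Sum.inr (Sum.inl l))))))))
        (fun t => if h : (t.1 : ℕ) < 6 then w ⟨t.1, h⟩ else 1) (fun t => by
          show (if h : (t.1 : ℕ) < 6 then w ⟨t.1, h⟩ else 1) ∈ S
          split_ifs
          · exact hw _
          · exact hS1)
    have e : (fun k : Fin 6 => (fun t : β => if h : (t.1 : ℕ) < 6 then w ⟨t.1, h⟩ else 1)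
        (Fin.castLE (by norm_num) k, 0, 0)) = w := by
      funext k
      show (if h : ((Fin.castLE (by norm_num : 6 ≤ 13) k : Fin 13) : ℕ) < 6 then w ⟨_, h⟩ else 1) = w k
      rw [dif_pos (by simpa using k.2)]
      congr 1
    have h' : Z (fun k : Fin 6 => (fun t : β => if h : (t.1 : ℕ) < 6 then w ⟨t.1, h⟩ else 1)
        (Fin.castLE (by norm_num) k, 0, 0)) l ∈ S := h
    rwa [e] at h'
  have e_Wt : ∀ q : Fin 13 → Matrix (Fin 3) (Fin 3) A, (∀ k i j, q k i j ∈ S) →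
      ∀ l i j, Wt q l i j ∈ S := fun q hq l i j =>
      hS (Sum.inr (Sum.inr (Sum.inr (Sum.inr (Sum.inr (Sum.inr (Sum.inr (Sum.inr (l, i, j)))))))))
        (fun t => q t.1 t.2.1 t.2.2) (fun t => hq _ _ _)
  refine ⟨S, p, c, hc, ⟨hSc, ⟨hS1, e_add, e_mul, e_star, e_smul⟩, fun i => ⟨(hp i).1, e_p i⟩,
    ⟨g, fun l => ⟨hg l, e_g l⟩, hgap⟩, ⟨W, fun i => ⟨hW i, e_W i⟩, hW2⟩,
    fun x hx => ⟨v x, hv x, e_v x hx, b x, e_b x hx, hb x⟩,
    fun x hx => ⟨V3 x, hV3 x, e_V3 x hx, B3 x, e_B3 x hx, hB3 x⟩, ?_, ?_⟩⟩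
  · intro w hw
    obtain ⟨h1, h2⟩ := hZ w (fun i => ⟨(hw i).1, trivial⟩)
    exact ⟨Z w, fun i => ⟨(h1 i).1, e_Z w (fun i => (hw i).2) i⟩, h2⟩
  · intro q hq
    obtain ⟨h1, h2⟩ := hWt q (fun i => ⟨(hq i).1, trivial⟩)
    exact ⟨Wt q, fun i => ⟨(h1 i).1, e_Wt q (fun k i j => (hq k).2 i j) i⟩,
      fun z hz => h2 z (fun i => ⟨hz i, trivial⟩)⟩

end Pool.Agent.Helper278.HU
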