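import Mathlib
import Pool.Agent.Helper278.CEIter

set_option autoImplicit false
set_option linter.unusedSectionVars false

open scoped InnerProductSpace ComplexOrder Topology BoundedContinuousFunction
open Filter

namespace Pool.Agent.Helper278.HU

open Pool.Agent.Helper278.CE

/-- transport of an ultrapower along an isomorphism -/
theorem transport_ultra {I : Type*} {A : Type*} [NormedRing A] [StarRing A] [NormedAlgebra ℂ A]
    {Q : Type*} [Ring Q] [StarRing Q] [Algebra ℂ Q] {Q' : Type*} [Ring Q'] [StarRing Q']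
    [Algebra ℂ Q'] {τ : A → ℂ} {U : Ultrafilter I} {π : (I → A) → Q} {φ : Q → ℂ}
    (h : CE.IsTracialUltrapower τ U π φ) (e : Q ≃⋆ₐ[ℂ] Q') :
    CE.IsTracialUltrapower τ U (fun x => e (π x)) (fun q => φ (e.symm q)) := by
  refine ⟨⟨?_, ?_, ?_, ?_, ?_, ?_, ?_⟩, ?_⟩
  · show e (π _) = 1
    rw [h.quot.one, map_one]
  · intro x y hx hy
    show e (π _) = e (π x) + e (π y)
    rw [h.quot.add x y hx hy, map_add]
  · intro x y hx hy
    show e (π _) = e (π x) * e (π y)
    rw [h.quot.mul x y hx hy, map_mul]
  · intro c x hx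
    show e (π _) = c • e (π x)
    rw [h.quot.smul c x hx, map_smul]
  · intro x hx
    show e (π _) = star (e (π x))
    rw [h.quot.star x hx, map_star]
  · intro q
    obtain ⟨x, hx, hxq⟩ := h.quot.surj (e.symm q)
    refine ⟨x, hx, ?_⟩
    show e (π x) = q
    rw [hxq, e.apply_symm_apply]
  · intro x hx
    rw [← h.quot.ker x hx]
    constructor
    · intro hz
      have h1 : e (π x) = e 0 := by
        rw [map_zero]
        exact hz
      exact e.injective h1
    · intro hz
      show e (π x) = 0
      rw [hz, map_zero]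
  · intro x hx
    show Tendsto _ _ (𝓝 (φ (e.symm (e (π x)))))
    rw [e.symm_apply_apply]
    exact h.trace x hx

/-- The ultrapower of a II₁ factor as a von Neumann algebra. -/
theorem exists_ultra_vN {H : Type} [NormedAddCommGroup H] [InnerProductSpace ℂ H]
    [CompleteSpace H] (N : VonNeumannAlgebra H) (τ : Elt N → ℂ) (hN : IsIIOneFactor N τ)
    (U : Ultrafilter ℕ) (hU : ∀ n, {n} ∉ U) :
    ∃ (K : Type) (_ : NormedAddCommGroup K) (_ : InnerProductSpace ℂ K) (_ : CompleteSpace K)
      (Q : VonNeumannAlgebra K) (π : (ℕ → Elt N) → Elt Q) (φ : Elt Q → ℂ),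
      CE.IsTracialUltrapower τ U π φ ∧ IsIIOneFactor Q φ := by
  let T : TracialState N := mkState N τ hN.normal hN.trace
  have hT : ∀ x, T.τ x = τ x := mkState_apply N τ hN.normal hN.trace
  have hd : IsDiffuse N := diffuse_of_factor T hN.center hN.infinite
  have hL : LyapProp T.τ := lyapProp T hd
  obtain ⟨Q, _, _, _, _, π, σ, hπ⟩ := exists_ultrapower T U
  have h := sigma_trAlg hπ
  have hB := ball_ultra hU hπ
  obtain ⟨K, _, _, _, j, hdj, hj⟩ := exists_gns h
  have hII := isIIOne_MM h hdj hj hB (fun z hz => central_scalar hπ hL hN.center z hz)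
    (infinite_Q hπ hN.infinite)
  set e := LmEquiv h hdj hj hB with he
  have hfun : (fun x => T.τ x) = τ := funext hT
  have h1 := transport_ultra (plain_tracial hπ) e
  rw [hfun] at h1
  have h2 : (fun q => σ (e.symm q)) = tauM j := by
    funext q
    have := tauM_LmEquiv h hdj hj hB (e.symm q)
    rw [← he, e.apply_symm_apply] at this
    rw [this]
    rfl
  rw [h2] at h1
  exact ⟨K, inferInstance, inferInstance, inferInstance, MM j, _, tauM j, h1, hII⟩

end Pool.Agent.Helper278.HU
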